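import Pool.Agent.H678R3.BSD.Norm2

/-!
# The original Birch–Swinnerton-Dyer product in families with marked points: normal order

For the cubic `P = t³ + a t² + b t + c` with `P(0) = V`, `P(1) = W` (so `c = V`,
`b = W - 1 - a - V`) the families are: `(V, W) = (v, w)` (`j = 0`), `(v², w)` (`j = 1`) and
`(v², w²)` (`j = 2`), with parameters `n = (a, v, w)`.  The curve `y² = P(t)` has `j` marked
integral points `(0, v)`, `(1, w)`.  Its product over the good primes `p ≤ x` of `#C(F_p) / p`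
(the inverse of the truncated Euler product of `L(C, s)` at `s = 1`) is
`(log x) ^ (j + 1/2 + o(1))` for almost all members, for all `x ≤ H ^ (1/3)`.
-/

set_option autoImplicit false

open Finset Pool.Agent.H678R3.BSD

namespace Pool.Agent.Results.MP_8b7eba_nt.FamilyNormalOrder

open Classical in
theorem result (j : ℕ) (hj : j ≤ 2) :
    (∃ C : ℝ, 0 < C ∧ ∀ x : ℕ, 16 ≤ x → ∀ H : ℕ, x ^ 3 ≤ H →
      ∑ n ∈ boxH (H : ℤ), (Real.log (FP j n x) - ((j : ℝ) + 1 / 2) * Real.log (Real.log x)) ^ 2 ≤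
        C * Real.log (Real.log x) * (H : ℝ) ^ 3) ∧
    (∃ C : ℝ, ∀ δ : ℝ, 0 < δ → ∀ x : ℕ, 16 ≤ x → ∀ H : ℕ, x ^ 3 ≤ H →
      (((boxH (H : ℤ)).filter fun n => ¬ (Real.log x ^ ((j : ℝ) + 1 / 2 - δ) ≤ FP j n x ∧
        FP j n x ≤ Real.log x ^ ((j : ℝ) + 1 / 2 + δ))).card : ℝ) ≤
        C / (δ ^ 2 * Real.log (Real.log x)) * (H : ℝ) ^ 3) :=
  ⟨mean_square j hj, normal_order j hj⟩

end Pool.Agent.Results.MP_8b7eba_nt.FamilyNormalOrder
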